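import Pool.Agent.Y693.RF.ThmB

/-!
# The Euler products of almost all elliptic curves in quadratic families, over `ℚ` and over random
number fields

The question is about the products of the `N_p / p` over the primes `p < x` of good reduction of an
elliptic curve, that is, about the partial products of the Euler product of `1 / L(E, s)` at `s = 1`.  A
positive answer implies the Riemann hypothesis for `L(E, s)` and that the partial products converge to
`L(E, s)` for every `s` with `Re s > 1`.  The theorem gives the second assertion for almost all curves, in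
the range in which lengths and heights of `s` are between a power of the logarithm and a power of the size
of the parameter.

For `F = ℚ` and `f = X` (degree `n = 1`) the curves are `E_t : y² = x³ + P(-t) x + Q(-t)`, where `P`, `Q`
are given polynomials of degree at most two, not both constant.  In general `F` is a number field of
degree `d`, `f` a monic polynomial of degree `n` over `𝓞_F`, `L = F(θ)` is the extension of degree `n` of
`F` generated by a root `θ` of `f + t` (for a given `f` it exists for all but `O(X^{1/2} log X)` of the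
integers `|t| ≤ X`, by Hilbert's irreducibility theorem), and the curve is
`E_t : y² = x³ + P(θ) x + Q(θ)` over `L`.  For almost all `t` the partial products of the Euler product of
`L(E_t, s)` are, in every half-plane `Re s ≥ 1 + δ` and for `|Im s| ≤ X^c`, constant up to the factor
`1 + O(y^{-c})` between the lengths `y` and `x`, for all `(log X)^{1/c} ≤ y ≤ x ≤ X^c`; and the partial
product of any length `y ≥ (log X)^{1/c}` approximates `L(E_t, s)` itself up to the distance `A / log X` of
the edge `Re s = 3/2` of absolute convergence.  Apart from the `X^{1-c}` exceptions `t` this holds for all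
extensions `L = F(θ)` and any `X^c` families `P`, `Q`, and for the twists of the curves by Artin
representations of `F` (given by the eigenvalues `γ` of the Frobenius; `N = 1` and `γ = 1` for the curve
itself), uniformly in all number fields `F` of degree `d` and all `f`, `P`, `Q` with coefficients up to
`exp((log X)^B)`.
-/

set_option autoImplicit false

namespace Pool.Agent.Results.MP_ad1693_nt.EulerProductsRandomExtensions

open NumberField IsDedekindDomain

/-- `a_v(E) = q_v - #{(x, y) : y² = x³ + a x + b}`, where `x`, `y` are in the residue field of `v`.  It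
is the trace of the Frobenius at `v` for `E : y² = x³ + a x + b`, if the reduction is good, and
`q_v + 1 - a_v` is the number `N_v` of the points. -/
noncomputable def trace {K : Type} [Field K] [NumberField K] (a b : 𝓞 K)
    (v : HeightOneSpectrum (𝓞 K)) : ℂ :=
  (Ideal.absNorm v.asIdeal : ℂ) - Nat.card {P : (𝓞 K ⧸ v.asIdeal) × (𝓞 K ⧸ v.asIdeal) //
    P.2 ^ 2 = P.1 ^ 3 + Ideal.Quotient.mk v.asIdeal a * P.1 + Ideal.Quotient.mk v.asIdeal b}

/-- The prime `v` does not divide `6 (4 a³ + 27 b²)`; then `y² = x³ + a x + b` has good reduction at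
`v`. -/
def IsGood {K : Type} [Field K] [NumberField K] (a b : 𝓞 K) (v : HeightOneSpectrum (𝓞 K)) : Prop :=
  6 * (4 * a ^ 3 + 27 * b ^ 2) ∉ v.asIdeal

/-- The Euler factor at `v` of the twist of `y² = x³ + a x + b` by the representation with the
eigenvalues `γ v j` of the Frobenius at `v`: the product of the
`(1 - a_v γ q_v^{-s} + γ² q_v^{1-2s})⁻¹` over the `γ = γ v j`. -/
noncomputable def factor {K : Type} [Field K] [NumberField K] {N : ℕ} (a b : 𝓞 K)
    (γ : HeightOneSpectrum (𝓞 K) → Fin N → ℂ) (s : ℂ) (v : HeightOneSpectrum (𝓞 K)) : ℂ :=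
  ∏ j, (1 - trace a b v * γ v j * (Ideal.absNorm v.asIdeal : ℂ) ^ (-s) +
    γ v j ^ 2 * (Ideal.absNorm v.asIdeal : ℂ) ^ (1 - 2 * s))⁻¹

/-- The partial product over the good primes with `q_v ≤ x`. -/
noncomputable def partialProduct {K : Type} [Field K] [NumberField K] {N : ℕ} (a b : 𝓞 K)
    (γ : HeightOneSpectrum (𝓞 K) → Fin N → ℂ) (s : ℂ) (x : ℕ) : ℂ :=
  ∏ᶠ v ∈ {v : HeightOneSpectrum (𝓞 K) | IsGood a b v ∧ Ideal.absNorm v.asIdeal ≤ x}, factor a b γ s v

/-- The Euler product over all good primes. -/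
noncomputable def eulerProduct {K : Type} [Field K] [NumberField K] {N : ℕ} (a b : 𝓞 K)
    (γ : HeightOneSpectrum (𝓞 K) → Fin N → ℂ) (s : ℂ) : ℂ :=
  ∏' v : {v : HeightOneSpectrum (𝓞 K) // IsGood a b v}, factor a b γ s v

/-- The eigenvalues of the Frobenius at the primes `w` of `L` for the restriction of the representation
to `L`: at `w` above `v` they are the powers `γ ^ f(w|v)` of those at `v`, where `f(w|v)` is the residue
degree. -/
noncomputable def baseChange {F : Type} [Field F] [NumberField F] {N : ℕ} (L : Type) [Field L]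
    [NumberField L] [Algebra F L] (γ : Ideal (𝓞 F) → Fin N → ℂ) (w : HeightOneSpectrum (𝓞 L))
    (j : Fin N) : ℂ :=
  γ (w.asIdeal.comap (algebraMap (𝓞 F) (𝓞 L))) j ^
    Ideal.inertiaDeg' (w.asIdeal.comap (algebraMap (𝓞 F) (𝓞 L))) w.asIdeal

/-- `L = F(θ)` is an extension of `F` of degree `deg f`, and `θ` is a root of `f + t`. -/
def Generates {F : Type} [Field F] [NumberField F] {L : Type} [Field L] [NumberField L] [Algebra F L]
    (f : Polynomial (𝓞 F)) (t : ℤ) (θ : 𝓞 L) : Prop :=
  Polynomial.aeval θ (f + Polynomial.C (t : 𝓞 F)) = 0 ∧ Module.finrank F L = f.natDegree ∧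
    Algebra.adjoin F {(θ : L)} = ⊤

/-- All conjugates of all coefficients of `f` have absolute value at most `R`. -/
def HeightLE {F : Type} [Field F] [NumberField F] (R : ℝ) (f : Polynomial (𝓞 F)) : Prop :=
  ∀ i, ∀ σ : F →+* ℂ, ‖σ (f.coeff i : F)‖ ≤ R

/-- **Euler products of almost all elliptic curves in quadratic families over random number fields.**
Let `d`, `n`, `N` be integers, `n ≥ 1`, `B` real and `δ > 0`.  There is `c > 0`, and for every `η > 0`
there are `A` and `X₀`, such that for all `X ≥ X₀`, all number fields `F` of degree `d`, all monic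
polynomials `f` of degree `n` over `𝓞_F`, and any `m ≤ X^c` pairs `P_k`, `Q_k` of polynomials over `𝓞_F` of
degree at most two, not both constant, with twists `γ_k`, the following holds for all integers `|t| ≤ X`,
with at most `X^{1-c}` exceptions (the conjugates of all coefficients of `f`, `P_k`, `Q_k` are at most
`exp((log X)^B)`).  Let `L = F(θ)` be any extension of `F` of degree `n` with `f(θ) = - t`, and let
`L_k(s; x)` be the partial product of length `x` for `y² = x³ + P_k(θ) x + Q_k(θ)` over `L`, twisted by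
`γ_k`.  Then for all `k` and all `s` with `|Im s| ≤ X^c`
* `|L_k(s; x) / L_k(s; y) - 1| ≤ y^{-c}` for all `(log X)^{1/c} ≤ y ≤ x ≤ X^c`, if `Re s ≥ 1 + δ`;
* the Euler product is `(1 + ε) L_k(s; y)` with `|ε| ≤ η`, for all `y ≥ (log X)^{1/c}`, if
  `Re s ≥ 3/2 + A / log X`. -/
theorem result (d n N : ℕ) (_ : 0 < n) (B δ : ℝ) (_ : 0 < δ) :
    ∃ c : ℝ, 0 < c ∧ ∀ η : ℝ, 0 < η → ∃ A : ℝ, ∃ X₀ : ℕ, ∀ X : ℕ, X₀ ≤ X →
      ∀ (F : Type) [Field F] [NumberField F], Module.finrank ℚ F = d →
      ∀ f : Polynomial (𝓞 F), f.Monic → f.natDegree = n → HeightLE (Real.exp ((Real.log X) ^ B)) f →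
      ∀ m : ℕ, (m : ℝ) ≤ (X : ℝ) ^ c → ∀ (P Q : Fin m → Polynomial (𝓞 F))
        (γ : Fin m → Ideal (𝓞 F) → Fin N → ℂ),
        (∀ k, (P k).natDegree ≤ 2 ∧ (Q k).natDegree ≤ 2 ∧ 0 < (P k).natDegree + (Q k).natDegree) →
        (∀ k, HeightLE (Real.exp ((Real.log X) ^ B)) (P k) ∧
          HeightLE (Real.exp ((Real.log X) ^ B)) (Q k)) →
        (∀ k v j, ‖γ k v j‖ ≤ 1) →
        ({t : ℤ | |t| ≤ X ∧ ¬ ∀ (L : Type) [Field L] [NumberField L] [Algebra F L] (θ : 𝓞 L),
          Generates f t θ → ∀ (k : Fin m) (s : ℂ), |s.im| ≤ (X : ℝ) ^ c →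
            (1 + δ ≤ s.re → ∀ y x : ℕ, (Real.log X) ^ (1 / c) ≤ y → y ≤ x → (x : ℝ) ≤ (X : ℝ) ^ c →
              ‖partialProduct (Polynomial.aeval θ (P k)) (Polynomial.aeval θ (Q k)) (baseChange L (γ k)) s x /
                partialProduct (Polynomial.aeval θ (P k)) (Polynomial.aeval θ (Q k)) (baseChange L (γ k)) s y - 1‖ ≤
                  (y : ℝ) ^ (-c)) ∧
            (3 / 2 + A / Real.log X ≤ s.re → ∀ y : ℕ, (Real.log X) ^ (1 / c) ≤ y →
              ‖eulerProduct (Polynomial.aeval θ (P k)) (Polynomial.aeval θ (Q k)) (baseChange L (γ k)) s /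
                partialProduct (Polynomial.aeval θ (P k)) (Polynomial.aeval θ (Q k)) (baseChange L (γ k)) s y - 1‖ ≤
                  η)}.ncard : ℝ) ≤ (X : ℝ) ^ (1 - c) := by
  rename_i hn hδ
  obtain ⟨c, hc0, h⟩ := Pool.Agent.Y693.RF.thmB d n N hn B δ hδ
  refine ⟨c, hc0, fun η hη => ?_⟩
  obtain ⟨A, X₀, h⟩ := h η hη
  refine ⟨A, X₀, fun X hX F _ _ hF f hf hfn hcoef m hm P Q γ hdeg hPQ hγ => ?_⟩
  have h1 := h X hX F hF f hf hfn hcoef m hm P Q γ hdeg
    (fun k i σ => ⟨(hPQ k).1 i σ, (hPQ k).2 i σ⟩) hγ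
  refine le_trans ?_ h1
  have hfin : {t : ℤ | |t| ≤ X ∧ ¬ ∀ (L : Type) [Field L] [NumberField L] [Algebra F L] (θ : 𝓞 L),
      Pool.Agent.Y693.RF.Gen (f + Polynomial.C (t : 𝓞 F)) θ → ∀ k,
        Pool.Agent.Y693.RF.B1 δ c X (Polynomial.aeval θ (P k)) (Polynomial.aeval θ (Q k))
          (Pool.Agent.Y693.RF.bc L (γ k)) ∧
        Pool.Agent.Y693.RF.B2 η A c X (Polynomial.aeval θ (P k)) (Polynomial.aeval θ (Q k))
          (Pool.Agent.Y693.RF.bc L (γ k))}.Finite := by
    refine Set.Finite.subset (Set.finite_Icc (-(X : ℤ)) X) fun t ht => ?_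
    have := abs_le.1 ht.1
    exact ⟨this.1, this.2⟩
  refine Nat.cast_le.2 (Set.ncard_le_ncard ?_ hfin)
  rintro t ⟨ht1, ht2⟩
  refine ⟨ht1, fun hcon => ht2 ?_⟩
  intro L _ _ _ θ hθ k s hs
  obtain ⟨h5, h6⟩ := hcon L θ ⟨hθ.1, by rw [hθ.2.1, Polynomial.natDegree_add_C], hθ.2.2⟩ k
  exact ⟨fun hs1 y x hy hyx hx => h5 s hs1 hs y x hy hyx hx, fun hs1 y hy => h6 s hs1 hs y hy⟩

end Pool.Agent.Results.MP_ad1693_nt.EulerProductsRandomExtensions
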