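import Pool.Agent.X22.EQ15
import Pool.Agent.X22.EQ16

/-!
# A normal law for the original Birch–Swinnerton-Dyer product in arbitrarily thin families

Nothing is used besides Mathlib in the statement.
-/

set_option autoImplicit false

namespace Pool.Agent.Results.MP_ad1693_nt.FewDigitNormalLaw

open Finset

/-- The discriminant of `Y ^ 2 = X ^ 3 + A X + B`. -/
def disc (A B : ℤ) : ℤ := -16 * (4 * A ^ 3 + 27 * B ^ 2)

/-- The number `N_p` of the points (with the point at infinity) of the curve `Y ^ 2 = X ^ 3 + A X + B` over `ℤ/p`. -/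
noncomputable def points (p : ℕ) (A B : ℤ) : ℕ :=
  Nat.card {P : ZMod p × ZMod p // P.2 ^ 2 = P.1 ^ 3 + (A : ZMod p) * P.1 + (B : ZMod p)} + 1

open Classical in
/-- The original product of Birch and Swinnerton-Dyer for the curve `Y ^ 2 = X ^ 3 + A X + B`: the product of `N_p / p` over the primes `p < x` which do not divide
the discriminant. -/
noncomputable def product (A B : ℤ) (x : ℕ) : ℝ :=
  ∏ p ∈ (range x).filter (fun p : ℕ => p.Prime ∧ ¬ (p : ℤ) ∣ disc A B), (points p A B : ℝ) / p

/-- The value of the linear form `∑ a_l m_l`. -/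
def form {d : ℕ} (a : Fin d → ℤ) (m : Fin d → ℕ) : ℤ := ∑ l, (m l : ℤ) * a l

/-- The condition on the two linear forms `a`, `e`: one variable occurs only in `a` and one only in `e`, both with coefficient `1`. -/
def Free {d : ℕ} (a e : Fin d → ℤ) : Prop := ∃ l₀ l₁, a l₀ = 1 ∧ e l₀ = 0 ∧ a l₁ = 0 ∧ e l₁ = 1

/-- The digit number `i` (counted from the right, beginning with `0`) of `n` in base `b`. -/
def digit (b i n : ℕ) : ℕ := n / b ^ i % b

/-- The number which arises from the number `N` with at most `K` digits in base `b`, if for every `i ∈ S`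
the digit number `i` is replaced by `f i`. -/
def change (b K N : ℕ) (f : ℕ → ℕ) (S : Finset ℕ) : ℕ :=
  ∑ i ∈ range K, (if i ∈ S then f i else digit b i N) * b ^ i

open Classical in
/-- The number of the choices of `s l` of `K l` positions for all `l < d` for which the vector of the numbers obtained by
changing the digits of the `N l` at the chosen positions (according to `f l`) has the property `E`. -/
noncomputable def choices {d : ℕ} (b : ℕ) (K s N : Fin d → ℕ) (f : Fin d → ℕ → ℕ) (E : (Fin d → ℕ) → Prop) : ℕ :=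
  ((Fintype.piFinset (fun l => powersetCard (s l) (range (K l)))).filter
    (fun S => E (fun l => change b (K l) (N l) (f l) (S l)))).card

open Pool.Agent.X22.EQ Pool.Agent.TH894.NE

open Classical in
/-- the logarithm of the local factor -/
private noncomputable def fac (p : ℕ) (A B : ℤ) : ℝ := if (p : ℤ) ∣ disc A B then 0 else Real.log ((points p A B : ℝ) / p)

private lemma fac_gl (p : ℕ) (hp' : p.Prime) (hp : 64 ≤ p) (A B : ℤ) : haveI : Fact p.Prime := ⟨hp'⟩
    fac p A B = gl p 1 (A : ZMod p) (B : ZMod p) := by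
  have hf : Fact p.Prime := ⟨hp'⟩
  have hp0 : (p : ℝ) ≠ 0 := by exact_mod_cast hp'.ne_zero
  have h16 : (16 : ZMod p) ≠ 0 := by
    have h1 : ((16 : ℕ) : ZMod p) ≠ 0 := by
      rw [Ne, ZMod.natCast_eq_zero_iff]
      intro h
      have := Nat.le_of_dvd (by norm_num) h
      omega
    exact_mod_cast h1
  have h1 : (p : ℤ) ∣ disc A B ↔ 4 * (A : ZMod p) ^ 3 + 27 * (B : ZMod p) ^ 2 = 0 := by
    rw [← ZMod.intCast_zmod_eq_zero_iff_dvd]
    unfold disc
    push_cast
    constructor
    · intro h
      have h2 : (16 : ZMod p) * (4 * (A : ZMod p) ^ 3 + 27 * (B : ZMod p) ^ 2) = 0 := by linear_combination -h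
      exact (mul_eq_zero.1 h2).resolve_left h16
    · intro h
      rw [h, mul_zero]
  unfold fac gl
  by_cases h : 4 * (A : ZMod p) ^ 3 + 27 * (B : ZMod p) ^ 2 = 0
  · rw [if_pos (h1.2 h), if_pos h]
  · rw [if_neg (fun h' => h (h1.1 h')), if_neg h]
    congr 1
    unfold points Pool.Agent.X22.EC.tq
    rw [Nat.card_eq_fintype_card (α := ZMod p), ZMod.card]
    push_cast
    field_simp
    ring

private lemma fac_small (p : ℕ) (hp : p.Prime) (A B : ℤ) : |fac p A B| ≤ (p : ℝ) ^ 2 + 1 := by
  have hf : Fact p.Prime := ⟨hp⟩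
  unfold fac
  split_ifs
  · rw [abs_zero]
    positivity
  · have hp1 : (1 : ℝ) ≤ p := by exact_mod_cast hp.one_lt.le
    have hN1 : (1 : ℝ) ≤ points p A B := by
      unfold points
      push_cast
      have : (0 : ℝ) ≤ (Nat.card {P : ZMod p × ZMod p // P.2 ^ 2 = P.1 ^ 3 + (A : ZMod p) * P.1 + (B : ZMod p)} : ℝ) := Nat.cast_nonneg _
      linarith
    have hN2 : (points p A B : ℝ) ≤ (p : ℝ) ^ 2 + 1 := by
      unfold points
      have h1 : Nat.card {P : ZMod p × ZMod p // P.2 ^ 2 = P.1 ^ 3 + (A : ZMod p) * P.1 + (B : ZMod p)} ≤ p ^ 2 := by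
        refine (Finite.card_subtype_le _).trans (le_of_eq ?_)
        rw [Nat.card_eq_fintype_card, Fintype.card_prod, ZMod.card]
        ring
      have h2 : ((Nat.card {P : ZMod p × ZMod p // P.2 ^ 2 = P.1 ^ 3 + (A : ZMod p) * P.1 + (B : ZMod p)} : ℕ) : ℝ) ≤ (p : ℝ) ^ 2 := by exact_mod_cast h1
      push_cast
      linarith
    rw [Real.log_div (by linarith) (by linarith), abs_le]
    have h1 := Real.log_nonneg hN1
    have h2 := Real.log_nonneg hp1
    have h3 := Real.log_le_sub_one_of_pos (show (0 : ℝ) < points p A B by linarith)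
    have h4 := Real.log_le_sub_one_of_pos (show (0 : ℝ) < p by linarith)
    constructor <;> nlinarith

/-- **A normal law for the original product in thin families.** Let a base `b ≥ 2`, an integer `d ≥ 1` and `ε > 0` be given. There is
`c > 0` such that for all integers `r_l`, `K_l` (`l = 1, ..., d`) with `2 r_l ≤ K_l` and all `x` with `log log x ≥ 1 / c` and `x ≤ exp (c √r_l)` for all `l` the following holds.

Let `0 ≤ N_l < b ^ K_l` be arbitrary integers, prescribe for every position `j` a digit `f l j` different from the digit of `N_l` in base `b`, and let `a`, `e` be linear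
forms with integer coefficients in `d` variables which satisfy `Free`. If one chooses `r_l` of the `K_l` positions and replaces the digits of `N_l` at these positions, then for
every real `t` the proportion of the choices for which the curve `Y ^ 2 = X ^ 3 + a (m) X + e (m)`, where `m` is the vector obtained, satisfies
`∏_{p < x, p ∤ Δ} N_p / p ≤ √(log x) exp (t √(log log x))`
differs from the value `Φ (t)` of the distribution function of the standard normal law by at most `ε`. -/
theorem result (b d : ℕ) (hb : 2 ≤ b) (hd : 1 ≤ d) (ε : ℝ) (hε : 0 < ε) :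
    ∃ c : ℝ, 0 < c ∧ ∀ (K r : Fin d → ℕ) (x : ℕ), (∀ l, 2 * r l ≤ K l) → 1 / c ≤ Real.log (Real.log x) → (∀ l, (x : ℝ) ≤ Real.exp (c * Real.sqrt (r l))) →
    ∀ N : Fin d → ℕ, (∀ l, N l < b ^ K l) → ∀ f : Fin d → ℕ → ℕ, (∀ l j, f l j < b ∧ f l j ≠ digit b j (N l)) →
    ∀ a e : Fin d → ℤ, Free a e → ∀ t : ℝ,
      |(choices b K r N f (fun m => product (form a m) (form e m) x ≤ Real.sqrt (Real.log x) * Real.exp (t * Real.sqrt (Real.log (Real.log x)))) : ℝ) -
        (ProbabilityTheory.gaussianReal 0 1).real (Set.Iic t) * ∏ l, ((K l).choose (r l) : ℝ)| ≤ ε * ∏ l, ((K l).choose (r l) : ℝ) := by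
  classical
  obtain ⟨y, hy⟩ : ∃ y : ℕ, y = b * b + 64 := ⟨_, rfl⟩
  have hy64 : 64 ≤ y := by omega
  have hyr : (64 : ℝ) ≤ y := by exact_mod_cast hy64
  have hlogy : 1 ≤ Real.log y := by
    rw [Real.le_log_iff_exp_le (by linarith)]
    have := Real.exp_one_lt_d9
    linarith
  have hllogy : 0 ≤ Real.log (Real.log y) := Real.log_nonneg hlogy
  obtain ⟨S, hS⟩ : ∃ S : ℝ, S = ∑ p ∈ range (y + 1), ((p : ℝ) ^ 2 + 1) := ⟨_, rfl⟩
  have hS0 : 0 ≤ S := by rw [hS]; positivity
  obtain ⟨C₂, hC₂⟩ : ∃ C₂ : ℝ, C₂ = S + 1 + Real.log (Real.log y) := ⟨_, rfl⟩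
  have hC₂0 : 0 ≤ C₂ := by rw [hC₂]; positivity
  obtain ⟨c₁, hc₁, key⟩ := clt_pin b d hb hd (1 / 2) 1 6 195 C₂ ε one_pos (by norm_num) (by norm_num) hC₂0 hε
  obtain ⟨c, hc⟩ : ∃ c : ℝ, c = min c₁ (min 1 (1 / ((y : ℝ) + 3))) := ⟨_, rfl⟩
  have hc0 : 0 < c := by rw [hc]; exact lt_min hc₁ (lt_min one_pos (by positivity))
  have hca : c ≤ c₁ := by rw [hc]; exact min_le_left _ _
  have hcb : c ≤ 1 := by rw [hc]; exact (min_le_right _ _).trans (min_le_left _ _)
  have hcd : c ≤ 1 / ((y : ℝ) + 3) := by rw [hc]; exact (min_le_right _ _).trans (min_le_right _ _)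
  refine ⟨c, hc0, fun K r x hrK hlx hxr N hN f hf a e hae t => ?_⟩
  obtain ⟨l, hl⟩ : ∃ l : ℝ, l = Real.log (Real.log x) := ⟨_, rfl⟩
  rw [← hl] at hlx ⊢
  have hly : (y : ℝ) + 3 ≤ l := by
    refine le_trans ?_ hlx
    rw [le_div_iff₀ hc0]
    calc ((y : ℝ) + 3) * c ≤ ((y : ℝ) + 3) * (1 / ((y : ℝ) + 3)) := mul_le_mul_of_nonneg_left hcd (by positivity)
      _ = 1 := by field_simp
  have hl0 : 0 < l := by linarith
  have hx1 : 1 ≤ x := by
    by_contra h
    have h1 : x = 0 := by omega
    rw [h1, Nat.cast_zero, Real.log_zero, Real.log_zero] at hl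
    linarith
  have hx0 : (0 : ℝ) < x := by exact_mod_cast hx1
  have hlogx0 : 0 ≤ Real.log x := Real.log_nonneg (by exact_mod_cast hx1)
  have hlogx : 0 < Real.log x := by
    rcases hlogx0.eq_or_lt with h | h
    · rw [← h, Real.log_zero] at hl
      linarith
    · exact h
  have hxy : (y : ℝ) + 3 ≤ x := by
    have h1 := Real.log_le_sub_one_of_pos hlogx
    have h2 := Real.log_le_sub_one_of_pos hx0
    linarith
  have hxyn : y + 3 ≤ x := by exact_mod_cast hxy
  have hcast : ((x - 1 : ℕ) : ℝ) = (x : ℝ) - 1 := by rw [Nat.cast_sub hx1, Nat.cast_one]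
  have hla : |l - la y (x - 1)| ≤ C₂ := by
    have h1 : Real.log y ≤ Real.log ((x - 1 : ℕ) : ℝ) := Real.log_le_log (by linarith) (by rw [hcast]; linarith)
    have h2 : la y (x - 1) = Real.log (Real.log ((x - 1 : ℕ) : ℝ)) - Real.log (Real.log y) := by
      unfold la
      rw [Real.log_div (by linarith) (by linarith)]
    have h3 : Real.log ((x - 1 : ℕ) : ℝ) ≤ Real.log x := Real.log_le_log (by rw [hcast]; linarith) (by rw [hcast]; linarith)
    have h4 : Real.log (Real.log ((x - 1 : ℕ) : ℝ)) ≤ l := by rw [hl]; exact Real.log_le_log (by linarith) h3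
    have h5 : Real.log x ≤ Real.exp 1 * Real.log ((x - 1 : ℕ) : ℝ) := by
      have h6 : Real.log x ≤ 2 * Real.log ((x - 1 : ℕ) : ℝ) := by
        rw [← Real.log_rpow (by rw [hcast]; linarith)]
        apply Real.log_le_log hx0
        rw [hcast]
        norm_num
        nlinarith
      have h7 := Real.add_one_le_exp 1
      nlinarith
    have h8 : l ≤ 1 + Real.log (Real.log ((x - 1 : ℕ) : ℝ)) := by
      rw [hl]
      have h9 := Real.log_le_log hlogx h5
      rw [Real.log_mul (by positivity) (by linarith), Real.log_exp] at h9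
      exact h9
    rw [h2, hC₂, abs_le]
    constructor <;> linarith
  obtain ⟨G, hG⟩ : ∃ G : ℕ → (Fin d → ℕ) → ℝ, G = fun p m => fac p (form a m) (form e m) := ⟨_, rfl⟩
  have hcastf : ∀ (p : ℕ) (u : Fin d → ℤ) (m : Fin d → ℕ), ((form u m : ℤ) : ZMod p) = ∑ i, (m i : ZMod p) * ((u i : ℤ) : ZMod p) := by
    intro p u m
    unfold form
    push_cast
    rfl
  have hGgl : ∀ (p : ℕ) (hp : p.Prime), 64 ≤ p → ∀ m, haveI : Fact p.Prime := ⟨hp⟩
      G p m = gl p 1 (∑ i, (m i : ZMod p) * ((a i : ℤ) : ZMod p)) (∑ i, (m i : ZMod p) * ((e i : ℤ) : ZMod p)) := by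
    intro p hp hp64 m
    rw [hG]
    show fac p (form a m) (form e m) = _
    rw [fac_gl p hp hp64, hcastf, hcastf]
  obtain ⟨l₀, l₁, ha0, he0, ha1, he1⟩ := hae
  have hmeans : ∀ (p : ℕ) (hp : p.Prime), y < p → |mean d p (G p) - 1 / 2 / p| ≤ 195 / (p : ℝ) ^ (3 / 2 : ℝ) ∧
      |mean d p (fun m => G p m ^ 2) - 1 / p| ≤ 195 / (p : ℝ) ^ (3 / 2 : ℝ) := by
    intro p hp hyp
    have hfp : Fact p.Prime := ⟨hp⟩
    have h64 : 64 ≤ p := by omega
    obtain ⟨h1, h2⟩ := mean_gl p hp h64 1 (by simp)
    have h3 := mean_two (p := p) (fun i => ((a i : ℤ) : ZMod p)) (fun i => ((e i : ℤ) : ZMod p)) l₀ l₁ (by rw [ha0, Int.cast_one])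
      (by rw [he0, Int.cast_zero]) (by rw [ha1, Int.cast_zero]) (by rw [he1, Int.cast_one]) (fun s t => gl p 1 s t)
    have h4 := mean_two (p := p) (fun i => ((a i : ℤ) : ZMod p)) (fun i => ((e i : ℤ) : ZMod p)) l₀ l₁ (by rw [ha0, Int.cast_one])
      (by rw [he0, Int.cast_zero]) (by rw [ha1, Int.cast_zero]) (by rw [he1, Int.cast_one]) (fun s t => gl p 1 s t ^ 2)
    have h5 : mean d p (G p) = (∑ z : ZMod p × ZMod p, gl p 1 z.1 z.2) / (p : ℝ) ^ 2 := by
      rw [← h3]
      congr 1
      funext m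
      exact hGgl p hp h64 m
    have h6 : mean d p (fun m => G p m ^ 2) = (∑ z : ZMod p × ZMod p, gl p 1 z.1 z.2 ^ 2) / (p : ℝ) ^ 2 := by
      rw [← h4]
      congr 1
      funext m
      rw [hGgl p hp h64 m]
    rw [h5, h6]
    constructor
    · have e1 : (1 - (1 : ℝ) ^ 2 / 2) / p = 1 / 2 / p := by norm_num
      rw [e1] at h1
      refine h1.trans ?_
      apply div_le_div_of_nonneg_right (by norm_num)
      positivity
    · have e1 : (1 : ℝ) ^ 2 / p = 1 / p := by norm_num
      rw [e1] at h2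
      exact h2
  have hfacpos : ∀ (p : ℕ), p.Prime → ∀ A B : ℤ, (points p A B : ℝ) / p ≠ 0 := by
    intro p hp A B
    have h1 : (p : ℝ) ≠ 0 := by exact_mod_cast hp.ne_zero
    have h2 : (points p A B : ℝ) ≠ 0 := Nat.cast_ne_zero.2 (by unfold points; omega)
    exact div_ne_zero h2 h1
  have hprodpos : ∀ A B : ℤ, 0 < product A B x := by
    intro A B
    unfold product
    refine prod_pos fun p hp => ?_
    have hp' := (mem_filter.1 hp).2.1
    have h1 := hfacpos p hp' A B
    have h2 : (0 : ℝ) ≤ (points p A B : ℝ) / p := by positivity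
    exact lt_of_le_of_ne h2 h1.symm
  have hZ : ∀ m, |Real.log (product (form a m) (form e m) x) - ∑ p ∈ pin y (x - 1), G p m| ≤ C₂ := by
    intro m
    have h1 : Real.log (product (form a m) (form e m) x) = ∑ p ∈ (range x).filter Nat.Prime, G p m := by
      unfold product
      rw [Real.log_prod (fun p hp => hfacpos p (mem_filter.1 hp).2.1 _ _), ← filter_filter, sum_filter, hG]
      refine sum_congr rfl fun p _ => ?_
      show _ = fac p (form a m) (form e m)
      unfold fac
      by_cases h : (p : ℤ) ∣ disc (form a m) (form e m)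
      · rw [if_neg (not_not.2 h), if_pos h]
      · rw [if_pos h, if_neg h]
    have h2 : (range x).filter Nat.Prime = ((range (y + 1)).filter Nat.Prime) ∪ pin y (x - 1) := by
      ext p
      rw [mem_union, mem_filter, mem_filter, mem_pin, mem_range, mem_range]
      constructor
      · rintro ⟨h3, h4⟩
        by_cases h5 : p < y + 1
        · exact Or.inl ⟨h5, h4⟩
        · exact Or.inr ⟨⟨by omega, by omega⟩, h4⟩
      · rintro (⟨h3, h4⟩ | ⟨⟨h3, h5⟩, h4⟩)
        · exact ⟨by omega, h4⟩
        · exact ⟨by omega, h4⟩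
    have h3 : Disjoint ((range (y + 1)).filter Nat.Prime) (pin y (x - 1)) := by
      rw [disjoint_left]
      intro p hp hp'
      rw [mem_filter, mem_range] at hp
      rw [mem_pin] at hp'
      omega
    rw [h1, h2, sum_union h3, add_sub_cancel_right]
    have h4 : |∑ p ∈ (range (y + 1)).filter Nat.Prime, G p m| ≤ S := by
      refine (abs_sum_le_sum_abs _ _).trans ?_
      have h5 : ∀ p ∈ (range (y + 1)).filter Nat.Prime, |G p m| ≤ (p : ℝ) ^ 2 + 1 := by
        intro p hp
        rw [hG]
        exact fac_small p (mem_filter.1 hp).2 _ _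
      refine (sum_le_sum h5).trans ?_
      rw [hS]
      exact sum_le_sum_of_subset_of_nonneg (filter_subset _ _) fun p _ _ => by positivity
    rw [hC₂]
    linarith
  have h := key r K y (x - 1) hrK (by omega) (by omega) (by omega) l hla ((one_div_le_one_div_of_le hc0 hca).trans hlx) (fun i => by
      have h1 : Real.log ((x - 1 : ℕ) : ℝ) ≤ c * Real.sqrt (r i) := by
        rw [Real.log_le_iff_le_exp (by rw [hcast]; linarith), hcast]
        exact (by linarith : (x : ℝ) - 1 ≤ x).trans (hxr i)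
      have h2 : 0 ≤ Real.log ((x - 1 : ℕ) : ℝ) := Real.log_nonneg (by rw [hcast]; linarith)
      calc Real.log ((x - 1 : ℕ) : ℝ) ^ 2 ≤ (c * Real.sqrt (r i)) ^ 2 := pow_le_pow_left₀ h2 h1 2
        _ = (c * c) * r i := by rw [mul_pow, Real.sq_sqrt (Nat.cast_nonneg _)]; ring
        _ ≤ c₁ * r i := by
            apply mul_le_mul_of_nonneg_right _ (Nat.cast_nonneg _)
            nlinarith) N hN f hf G
    (fun p hp hyp m => by
      have hfp : Fact p.Prime := ⟨hp⟩
      rw [hGgl p hp (by omega) m, hGgl p hp (by omega) (fun i => m i % p)]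
      congr 1
      · exact sum_congr rfl fun i _ => by rw [ZMod.natCast_mod]
      · exact sum_congr rfl fun i _ => by rw [ZMod.natCast_mod])
    (fun p hp hyp m => by
      have hfp : Fact p.Prime := ⟨hp⟩
      rw [hGgl p hp (by omega) m]
      exact (gl_size p hp (by omega) 1 (by simp) _ _).2.2)
    (fun p hp hyp => (hmeans p hp hyp).1) (fun p hp hyp => (hmeans p hp hyp).2)
    (fun m => Real.log (product (form a m) (form e m) x)) hZ t
  have hev : ∀ m, ((Real.log (product (form a m) (form e m) x) - 1 / 2 * l) / Real.sqrt (1 * l) ≤ t) ↔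
      product (form a m) (form e m) x ≤ Real.sqrt (Real.log x) * Real.exp (t * Real.sqrt l) := by
    intro m
    rw [one_mul, div_le_iff₀ (Real.sqrt_pos.2 hl0), ← Real.log_le_log_iff (hprodpos _ _) (by positivity),
      Real.log_mul (by positivity) (by positivity), Real.log_exp, Real.log_sqrt hlogx.le, ← hl]
    constructor <;> intro h <;> linarith
  have hcount : (choices b K r N f (fun m => product (form a m) (form e m) x ≤ Real.sqrt (Real.log x) * Real.exp (t * Real.sqrt l)) : ℝ) =
      (((Fintype.piFinset (fun i => powersetCard (r i) (range (K i)))).filter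
      (fun S => (Real.log (product (form a (fun i => Pool.Agent.TH894.SM.change b (K i) (N i) (f i) (S i))) (form e (fun i => Pool.Agent.TH894.SM.change b (K i) (N i) (f i) (S i))) x) -
        1 / 2 * l) / Real.sqrt (1 * l) ≤ t)).card : ℝ) := by
    unfold choices
    congr 2
    apply filter_congr
    intro S _
    rw [hev]
    rfl
  rw [hcount]
  exact h

end Pool.Agent.Results.MP_ad1693_nt.FewDigitNormalLaw
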