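import Pool.Agent.X35.GV.PencilInt

/-!
# The sums `∑_{p^k ≤ x} (α_p^k + β_p^k) (log p) p ^ (- i k σ)` at all heights for many pencils `y² = f(x) - n q(x)` of elliptic curves at once, for
the integers `n` of an interval of length `N` with at most `N ^ (1 - κ)` exceptions
-/

set_option autoImplicit false

namespace Pool.Agent.Results.MP_ad1693_nt.PencilsInIntervals

open Finset Polynomial

/-- The number `a_p = p + 1 - N_p` for the cubic curve `y² = f(x) - n q(x)` modulo `p` (`f` monic cubic, `q` of degree at most `2`, so that there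
is one point at infinity): `p` minus the number of the affine points. -/
noncomputable def trace (f q : ℤ[X]) (n : ℤ) (p : ℕ) : ℤ :=
  p - Nat.card {P : ZMod p × ZMod p // P.2 ^ 2 = ((f - C n * q).map (Int.castRingHom (ZMod p))).eval P.1}

/-- The root `(a + i (4 p - a²) ^ (1 / 2)) / 2` of `T² - a T + p`. -/
noncomputable def alpha (p : ℕ) (a : ℤ) : ℂ := ((a : ℂ) + (√(4 * p - (a : ℝ) ^ 2) : ℝ) * Complex.I) / 2

/-- The root `(a - i (4 p - a²) ^ (1 / 2)) / 2` of `T² - a T + p`. -/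
noncomputable def beta (p : ℕ) (a : ℤ) : ℂ := ((a : ℂ) - (√(4 * p - (a : ℝ) ^ 2) : ℝ) * Complex.I) / 2

/-- The sum of `(α_p^k + β_p^k) (log p) p ^ (- i k σ)` over the odd primes `p` and `k ≥ 1` with `p ^ k ≤ x` (`k ≤ log_p x`). -/
noncomputable def psi (f q : ℤ[X]) (n : ℤ) (x : ℕ) (σ : ℝ) : ℂ :=
  ∑ p ∈ (range (x + 1)).filter (fun p => p.Prime ∧ p ≠ 2), ∑ k ∈ Icc 1 (Nat.log p x),
    (alpha p (trace f q n p) ^ k + beta p (trace f q n p) ^ k) * (Real.log p : ℂ) * (p : ℂ) ^ (-((k : ℂ) * (σ * Complex.I)))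

lemma norm_alpha (p : ℕ) (a : ℤ) (h : (a : ℝ) ^ 2 ≤ 4 * p) : ‖alpha p a‖ ^ 2 = p ∧ ‖beta p a‖ ^ 2 = p := by
  have hs : √(4 * p - (a : ℝ) ^ 2) ^ 2 = 4 * p - (a : ℝ) ^ 2 := Real.sq_sqrt (by linarith)
  unfold alpha beta
  rw [← Complex.normSq_eq_norm_sq, ← Complex.normSq_eq_norm_sq, Complex.normSq_apply, Complex.normSq_apply]
  constructor
  · simp
    nlinarith
  · simp
    nlinarith

lemma power_bound (p : ℕ) (a : ℤ) (h : (a : ℝ) ^ 2 ≤ 4 * p) (k x : ℕ) (hk : p ^ k ≤ x) :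
    ‖alpha p a ^ k + beta p a ^ k‖ ≤ 2 * √(x : ℝ) := by
  obtain ⟨h1, h2⟩ := norm_alpha p a h
  have hb : ∀ z : ℂ, ‖z‖ ^ 2 = p → ‖z ^ k‖ ≤ √(x : ℝ) := by
    intro z hz
    apply Real.le_sqrt_of_sq_le
    rw [norm_pow, ← pow_mul, mul_comm, pow_mul, hz]
    exact_mod_cast hk
  refine (norm_add_le _ _).trans ?_
  have := hb _ h1
  have := hb _ h2
  linarith

/-- Let `δ > 0` and `A ≥ 0`. There are `κ > 0`, `C > 0` and `N₀` such that for all integers `N ≥ N₀` and `M` and all sets `H x` of at most `x ^ A`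
(for `x ≥ 2`) pairs `(f, q)` of a monic cubic `f ∈ ℤ[x]` and a primitive `q ∈ ℤ[x]` of degree at most `2`, the following holds for all but at most
`N ^ (1 - κ)` of the integers `n` with `M ≤ n < M + N`.

For ALL integers `x` with `(log N) ^ C ≤ x ≤ N ^ κ`, ALL `(f, q) ∈ H x` and ALL real `σ` with `|σ| ≤ x ^ A`, the sum of
`(α_p^k + β_p^k) (log p) p ^ (- i k σ)` over the odd primes `p` and `k ≥ 1` with `p ^ k ≤ x`, for the curve `y² = f(x) - n q(x)`, is at most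
`x ^ (1 + δ)` in absolute value. -/
theorem result (δ A : ℝ) (hδ : 0 < δ) (hA : 0 ≤ A) :
    ∃ κ C : ℝ, 0 < κ ∧ 0 < C ∧ ∃ N₀ : ℕ, ∀ N : ℕ, N₀ ≤ N → ∀ (M : ℤ) (H : ℕ → Set (ℤ[X] × ℤ[X])),
      (∀ x, 2 ≤ x → (H x).Finite ∧ ((H x).ncard : ℝ) ≤ (x : ℝ) ^ A) →
      (∀ x, ∀ c ∈ H x, c.1.Monic ∧ c.1.natDegree = 3 ∧ c.2.natDegree ≤ 2 ∧ c.2.IsPrimitive) →
      ({n : ℤ | M ≤ n ∧ n < M + N ∧ ¬ ∀ x : ℕ, Real.log N ^ C ≤ x → (x : ℝ) ≤ (N : ℝ) ^ κ → ∀ c ∈ H x, ∀ σ : ℝ, |σ| ≤ (x : ℝ) ^ A →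
        ‖psi c.1 c.2 n x σ‖ ≤ (x : ℝ) ^ (1 + δ)}.ncard : ℝ) ≤ (N : ℝ) ^ (1 - κ) := by
  classical
  obtain ⟨W, hW1, hW2, hW3⟩ := Pool.Agent.X35.GV.heights A hA
  obtain ⟨κ, C, hκ, hC, N₀, HH⟩ := Pool.Agent.X35.GV.pencil_int (δ / 2) A (A + 6) 1 1 3 (by positivity) (by norm_num) (by norm_num)
  obtain ⟨x₀, hx₀⟩ : ∃ x₀ : ℝ, ∀ x : ℝ, x₀ ≤ x → 2 * (x : ℝ) ^ (1 + δ / 2) + 2 * (3 * (x * Real.log x)) + 2 * (x * Real.log x) ≤
      (x : ℝ) ^ (1 + δ) := by
    have h1 := (isLittleO_log_rpow_atTop (show (0 : ℝ) < δ / 2 by positivity)).bound (show (0 : ℝ) < 1 by norm_num)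
    have h2 : Filter.Tendsto (fun x : ℝ => x ^ (δ / 2)) Filter.atTop Filter.atTop := tendsto_rpow_atTop (by positivity)
    have h3 := h2.eventually_ge_atTop (10 : ℝ)
    obtain ⟨x₀, hx₀⟩ := Filter.eventually_atTop.1 (h1.and (h3.and (Filter.eventually_ge_atTop (1 : ℝ))))
    refine ⟨x₀, fun x hx => ?_⟩
    obtain ⟨h4, h5, h6⟩ := hx₀ x hx
    have hx0 : 0 < x := by linarith
    rw [one_mul, Real.norm_eq_abs, Real.norm_eq_abs, abs_of_nonneg (Real.log_nonneg h6), abs_of_pos (Real.rpow_pos_of_pos hx0 _)] at h4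
    have e1 : x ^ (1 + δ / 2) = x * x ^ (δ / 2) := by rw [Real.rpow_add hx0, Real.rpow_one]
    have e2 : x ^ (1 + δ) = x * (x ^ (δ / 2) * x ^ (δ / 2)) := by
      rw [Real.rpow_add hx0, Real.rpow_one, ← Real.rpow_add hx0]
      congr 2
      ring
    rw [e1, e2]
    have h8 : 0 < x ^ (δ / 2) := Real.rpow_pos_of_pos hx0 _
    calc 2 * (x * x ^ (δ / 2)) + 2 * (3 * (x * Real.log x)) + 2 * (x * Real.log x)
        ≤ 2 * (x * x ^ (δ / 2)) + 2 * (3 * (x * x ^ (δ / 2))) + 2 * (x * x ^ (δ / 2)) := by gcongr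
      _ = x * (10 * x ^ (δ / 2)) := by ring
      _ ≤ x * (x ^ (δ / 2) * x ^ (δ / 2)) := by gcongr
  obtain ⟨N₁, hN₁⟩ : ∃ N₁ : ℕ, ∀ N : ℕ, N₁ ≤ N → x₀ ≤ Real.log N ^ C := by
    have h1 : Filter.Tendsto (fun N : ℕ => Real.log (N : ℝ) ^ C) Filter.atTop Filter.atTop :=
      (tendsto_rpow_atTop hC).comp (Real.tendsto_log_atTop.comp tendsto_natCast_atTop_atTop)
    exact Filter.eventually_atTop.1 (h1.eventually_ge_atTop _)
  refine ⟨κ, C, hκ, hC, max N₀ N₁, fun N hN M H hH1 hH2 => ?_⟩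
  have hmain := HH N (le_trans (le_max_left _ _) hN) (ℤ[X] × ℤ[X]) H hH1 (fun c => ⟨1, Pool.Agent.X35.GV.up c.1, Pool.Agent.X35.GV.up c.2⟩)
    (by
      intro x c hc p hp h2
      obtain ⟨h1, h3, h4, h5⟩ := hH2 x c hc
      exact Pool.Agent.X35.GV.good_up c.1 c.2 h1 (by omega) h5 p hp)
    (by
      intro x c hc
      obtain ⟨h1, h3, h4, h5⟩ := hH2 x c hc
      exact ⟨(Pool.Agent.X35.GV.up_deg c.1).trans h3.le, (Pool.Agent.X35.GV.up_deg c.2).trans (by omega)⟩) W hW1 hW2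
    (fun c p t => (1 : ℝ) * (p : ℝ))
    (by
      intro x c hc p hp h2 t
      rw [Real.rpow_one, abs_of_nonneg (by positivity)]) M
  refine le_trans (Nat.cast_le.2 (Set.ncard_le_ncard ?_ ?_)) hmain
  · rintro n ⟨h1, h2, h3⟩
    refine ⟨h1, h2, fun hcon => h3 ?_⟩
    intro x hx1 hx2 c hc σ hσ
    obtain ⟨hx3, hS⟩ := hcon x hx1 hx2
    have hxx : x₀ ≤ x := (hN₁ N (le_trans (le_max_right _ _) hN)).trans hx1
    obtain ⟨g1, g2, g3, g4⟩ := hH2 x c hc
    have ho : Odd c.1.natDegree := by rw [g2]; decide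
    have hdq : c.2.natDegree < c.1.natDegree := by omega
    have hx0 : (0 : ℝ) < x := by exact_mod_cast (by omega : 0 < x)
    have hlx : 0 ≤ Real.log x := Real.log_natCast_nonneg x
    -- Weil's bound
    have hweil : ∀ p ∈ Pool.Agent.X35.GV.op x, |((trace c.1 c.2 n p : ℤ) : ℝ)| ≤ 2 * √(p : ℝ) := by
      intro p hp
      rw [Pool.Agent.X35.GV.mem_op] at hp
      have h5 := Pool.Agent.X35.GV.ptr_bound_sharp c.1 c.2 g1 ho hdq n p hp.2.1 hp.2.2
      rw [g2] at h5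
      have h6 : ((3 : ℕ) : ℝ) - 1 = 2 := by norm_num
      rw [h6] at h5
      exact h5
    have hsq : ∀ p ∈ Pool.Agent.X35.GV.op x, ((trace c.1 c.2 n p : ℤ) : ℝ) ^ 2 ≤ 4 * p := by
      intro p hp
      have h5 := hweil p hp
      rw [← sq_abs]
      calc |((trace c.1 c.2 n p : ℤ) : ℝ)| ^ 2 ≤ (2 * √(p : ℝ)) ^ 2 := pow_le_pow_left₀ (abs_nonneg _) h5 2
        _ = 4 * p := by
            rw [mul_pow, Real.sq_sqrt (Nat.cast_nonneg _)]
            norm_num
    -- the primes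
    have hK : ∀ p ∈ Pool.Agent.X35.GV.op x, |Pool.Agent.X35.GV.tot p (Pool.Agent.X35.GV.up c.1) (Pool.Agent.X35.GV.up c.2)
        (fun p _ => (1 : ℝ) * (p : ℝ)) n * Real.log p| ≤ 3 * (x * Real.log x) := by
      intro p hp
      have h5 := hweil p hp
      obtain ⟨q1, q2, q3, q4, q5⟩ := Pool.Agent.X35.GV.op_log hp
      rw [Pool.Agent.X35.GV.mem_op] at hp
      have h1 := Pool.Agent.X35.GV.ptr_tot c.1 c.2 n p hp.2.1 hp.2.2 (fun _ => 1)
      have e : Pool.Agent.X35.GV.ptr c.1 c.2 n p = trace c.1 c.2 n p := rfl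
      rw [h1, abs_mul, abs_neg, one_mul, abs_of_pos q3, e]
      have h4 : √(p : ℝ) ≤ x := by
        rw [Real.sqrt_le_left (by linarith)]
        nlinarith
      calc _ ≤ (2 * √(p : ℝ)) * Real.log p := by gcongr
        _ ≤ (2 * x) * Real.log x := by gcongr
        _ ≤ 3 * (x * Real.log x) := by nlinarith
    have hfin := hW3 x (by omega) (fun p => Pool.Agent.X35.GV.tot p (Pool.Agent.X35.GV.up c.1) (Pool.Agent.X35.GV.up c.2)
        (fun p _ => (1 : ℝ) * (p : ℝ)) n * Real.log p) _ _ (by positivity) hK (hS c hc) σ hσ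
    -- decomposition
    have hdec : psi c.1 c.2 n x σ = -∑ p ∈ Pool.Agent.X35.GV.op x, ((Pool.Agent.X35.GV.tot p (Pool.Agent.X35.GV.up c.1)
        (Pool.Agent.X35.GV.up c.2) (fun p _ => (1 : ℝ) * (p : ℝ)) n * Real.log p : ℝ) : ℂ) * (p : ℂ) ^ (-(σ * Complex.I)) +
        ∑ p ∈ Pool.Agent.X35.GV.op x, ∑ k ∈ Icc 2 (Nat.log p x),
          (alpha p (trace c.1 c.2 n p) ^ k + beta p (trace c.1 c.2 n p) ^ k) * (Real.log p : ℂ) * (p : ℂ) ^ (-((k : ℂ) * (σ * Complex.I))) := by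
      rw [← sum_neg_distrib, ← sum_add_distrib]
      unfold psi
      refine sum_congr rfl fun p hp => ?_
      have hp' : p ∈ Pool.Agent.X35.GV.op x := hp
      rw [Pool.Agent.X35.GV.mem_op] at hp'
      have hlog1 : 1 ≤ Nat.log p x := Nat.log_pos hp'.2.1.one_lt hp'.1
      have hI : Icc 1 (Nat.log p x) = insert 1 (Icc 2 (Nat.log p x)) := by
        ext k
        rw [mem_insert, mem_Icc, mem_Icc]
        omega
      rw [hI, sum_insert (by rw [mem_Icc]; omega)]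
      congr 1
      have h1 := Pool.Agent.X35.GV.ptr_tot c.1 c.2 n p hp'.2.1 hp'.2.2 (fun _ => 1)
      have e : Pool.Agent.X35.GV.ptr c.1 c.2 n p = trace c.1 c.2 n p := rfl
      rw [h1, e, pow_one, pow_one]
      have e2 : alpha p (trace c.1 c.2 n p) + beta p (trace c.1 c.2 n p) = (trace c.1 c.2 n p : ℂ) := by
        unfold alpha beta
        ring
      rw [e2, Nat.cast_one, one_mul]
      push_cast
      ring
    have hpow : ‖∑ p ∈ Pool.Agent.X35.GV.op x, ∑ k ∈ Icc 2 (Nat.log p x),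
          (alpha p (trace c.1 c.2 n p) ^ k + beta p (trace c.1 c.2 n p) ^ k) * (Real.log p : ℂ) * (p : ℂ) ^ (-((k : ℂ) * (σ * Complex.I)))‖ ≤
        2 * (x * Real.log x) := by
      have hin : ∀ p ∈ Pool.Agent.X35.GV.op x, ‖∑ k ∈ Icc 2 (Nat.log p x),
          (alpha p (trace c.1 c.2 n p) ^ k + beta p (trace c.1 c.2 n p) ^ k) * (Real.log p : ℂ) * (p : ℂ) ^ (-((k : ℂ) * (σ * Complex.I)))‖ ≤
          if p ≤ Nat.sqrt x then 2 * √(x : ℝ) * Real.log x else 0 := by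
        intro p hp
        have hsqp := hsq p hp
        obtain ⟨q1, q2, q3, q4, q5⟩ := Pool.Agent.X35.GV.op_log hp
        rw [Pool.Agent.X35.GV.mem_op] at hp
        split_ifs with hps
        · refine (norm_sum_le _ _).trans ?_
          have h1 : ∀ k ∈ Icc 2 (Nat.log p x), ‖(alpha p (trace c.1 c.2 n p) ^ k + beta p (trace c.1 c.2 n p) ^ k) * (Real.log p : ℂ) *
              (p : ℂ) ^ (-((k : ℂ) * (σ * Complex.I)))‖ ≤ 2 * √(x : ℝ) * Real.log p := by
            intro k hk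
            rw [mem_Icc] at hk
            have hpk : p ^ k ≤ x := (Nat.pow_le_pow_right hp.2.1.pos hk.2).trans (Nat.pow_log_le_self p (by omega))
            have h5 := power_bound p (trace c.1 c.2 n p) hsqp k x hpk
            rw [norm_mul, norm_mul, Complex.norm_real, Real.norm_eq_abs, abs_of_pos q3, Complex.norm_natCast_cpow_of_pos hp.2.1.pos]
            have h6 : (-((k : ℂ) * (σ * Complex.I))).re = 0 := by simp
            rw [h6, Real.rpow_zero, mul_one]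
            exact mul_le_mul_of_nonneg_right h5 q3.le
          refine (sum_le_sum h1).trans ?_
          rw [sum_const, Nat.card_Icc, nsmul_eq_mul]
          have h7 : (Nat.log p x : ℝ) * Real.log p ≤ Real.log x := by
            rw [← Real.log_pow]
            apply Real.log_le_log (by positivity)
            exact_mod_cast Nat.pow_log_le_self p (by omega)
          have h8 : ((Nat.log p x + 1 - 2 : ℕ) : ℝ) ≤ Nat.log p x := by exact_mod_cast (by omega : Nat.log p x + 1 - 2 ≤ Nat.log p x)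
          calc _ ≤ (Nat.log p x : ℝ) * (2 * √(x : ℝ) * Real.log p) := by gcongr
            _ = 2 * √(x : ℝ) * ((Nat.log p x : ℝ) * Real.log p) := by ring
            _ ≤ 2 * √(x : ℝ) * Real.log x := by gcongr
        · have hlog : Nat.log p x < 2 := by
            apply Nat.log_lt_of_lt_pow (by omega)
            rw [sq]
            exact Nat.sqrt_lt.1 (by omega)
          rw [Icc_eq_empty (by omega), sum_empty, norm_zero]
      refine (norm_sum_le _ _).trans ((sum_le_sum hin).trans ?_)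
      rw [← sum_filter, sum_const, nsmul_eq_mul]
      have hcard : (((Pool.Agent.X35.GV.op x).filter (fun p => p ≤ Nat.sqrt x)).card : ℝ) ≤ √(x : ℝ) := by
        have h1 : (Pool.Agent.X35.GV.op x).filter (fun p => p ≤ Nat.sqrt x) ⊆ Icc 1 (Nat.sqrt x) := by
          intro p hp
          rw [mem_filter, Pool.Agent.X35.GV.mem_op] at hp
          rw [mem_Icc]
          exact ⟨hp.1.2.1.one_lt.le, hp.2⟩
        have h2 := card_le_card h1
        rw [Nat.card_Icc, Nat.add_sub_cancel] at h2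
        have h3 : (((Pool.Agent.X35.GV.op x).filter (fun p => p ≤ Nat.sqrt x)).card : ℝ) ≤ (Nat.sqrt x : ℝ) := by exact_mod_cast h2
        exact h3.trans Real.nat_sqrt_le_real_sqrt
      calc _ ≤ √(x : ℝ) * (2 * √(x : ℝ) * Real.log x) := by gcongr
        _ = 2 * ((√(x : ℝ) * √(x : ℝ)) * Real.log x) := by ring
        _ = 2 * (x * Real.log x) := by rw [Real.mul_self_sqrt hx0.le]
    rw [hdec]
    refine (norm_add_le _ _).trans ?_
    rw [norm_neg]
    have := hx₀ x hxx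
    linarith
  · refine (Set.finite_Ico M (M + N)).subset ?_
    rintro n ⟨h1, h2, -⟩
    exact ⟨h1, h2⟩

end Pool.Agent.Results.MP_ad1693_nt.PencilsInIntervals
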