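import Pool.Agent.X278.OP.Asc

/-!
# The original products of Birch and Swinnerton-Dyer in residue classes, with a rotated weight

`K` is any number field and `E : y² = x³ + a x + b`, `a, b ∈ 𝓞_K`. For a prime `v` of `K` which does not divide
`6 (4 a³ + 27 b²)` let `q_v` be the norm, `N_v` the number of affine points modulo `v` and `a_v = q_v - N_v`. In Q1 one
asks for the asymptotic behaviour of `∏ #E(k_v) / q_v`. Here the primes are distributed into the residue classes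
`q_v ≡ c mod N`, `(c, N) = 1`, for any modulus `N`, and the sharp cut-off is replaced by the weight
`w_T(v) = exp(iγu) / Γ(1 + u)`, `u = log q_v / T`, `γ > π/2` fixed (`T` plays the role of `log x`):

`P_c(T) = ∏_{q_v ≡ c} (#E(k_v) / q_v)^{w_T(v)} = exp S_c(T)`, `S_c(T) = ∑_{q_v ≡ c} log((N_v + 1) / q_v) w_T(v)`.

For the Dirichlet characters `χ` mod `N` let `m(χ)` be the order at `s = 1` of the (incomplete) `L`-series of `E` twisted by
`χ`, and `n(χ)` the order at `s = 2` of the product of the `(1 - χ(q_v) (a_v² - 2 q_v) q_v^{-s} + χ(q_v)² q_v^{2-2s})⁻¹`. The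
continuations enter as functions which are meromorphic at the real points of `[1, 3/2]` and at `2`, respectively. NOTHING
is assumed on zeros. Put `κ(χ) = m(χ) + (n(χ) - n(χ²)) / 2`.

1. For every `χ` the twisted sum `∑_v χ(q_v) log((N_v + 1) / q_v) w_T(v)` is `κ(χ) (log T - Λ(γ)) + C_χ + O(1/T)`. So the
   order `m(χ)` of the twist is read off from the factors of the original product.
2. For every class `c` prime to `N`: `S_c(T) = κ_c (log T - Λ(γ)) + C_c + O(1/T)` with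
   `κ_c = φ(N)⁻¹ ∑_χ χ(c)⁻¹ κ(χ)`, and `P_c(T) / T^{κ_c}` has a limit `≠ 0`.
3. The class `c = 1` alone determines `∑_χ m(χ)` (for `K = ℚ` the order of `L(E / ℚ(μ_N), s)`, up to Euler factors).
4. If no `m(χ)` is negative, then no twist vanishes at `1` if and only if `|P_1(T)| ≤ B T^{κ⁰}` for some `B` and large `T`, with
   `κ⁰ = ∑_χ (n(χ) - n(χ²)) / (2φ(N))`.

For `K = ℚ` all hypotheses hold (modularity; Rankin-Selberg), and for `E` without complex multiplication `n(χ) = 1` for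
`χ = 1` and `n(χ) = 0` otherwise; then `κ_c = φ(N)⁻¹ (∑_χ χ(c)⁻¹ m(χ) + (1 - R(c)) / 2)`, `R(c)` being the number of square
roots of `c` mod `N`: the products over the squares mod `N` are smaller than the others, a bias which does not depend
on the ranks. For `N = 1` one has `κ = m`.

Proof: the rotated law (`Pool.Agent.X287.CR`) for the systems `χ(q_v) α_v`, `χ(q_v) α_v²`, `χ(q_v)² α_v²`, and the
comparison `Pool.Agent.X278.OP.cmp_tw`.
-/

set_option autoImplicit false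

open IsDedekindDomain NumberField Filter Topology

namespace Pool.Agent.Results.MP_ad1693_nt.ProductsInResidueClasses

variable {K : Type} [Field K] [NumberField K]

/-- The prime `v` does not divide `6 (4 a³ + 27 b²)`. -/
def Good (a b : 𝓞 K) (v : HeightOneSpectrum (𝓞 K)) : Prop :=
  6 * (4 * a ^ 3 + 27 * b ^ 2) ∉ v.asIdeal

/-- `q_v`, the norm of `v`. -/
noncomputable def q (v : HeightOneSpectrum (𝓞 K)) : ℕ := Ideal.absNorm v.asIdeal

/-- `N_v`, the number of affine points of `y² = x³ + a x + b` modulo `v`. -/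
noncomputable def points (a b : 𝓞 K) (v : HeightOneSpectrum (𝓞 K)) : ℕ :=
  Nat.card {P : (𝓞 K ⧸ v.asIdeal) × (𝓞 K ⧸ v.asIdeal) //
    P.2 ^ 2 = P.1 ^ 3 + Ideal.Quotient.mk v.asIdeal a * P.1 + Ideal.Quotient.mk v.asIdeal b}

/-- `F` is the incomplete `L`-series of `y² = x³ + a x + b` twisted by `χ`, for `Re s > 3/2`. -/
def IsTwist (a b : 𝓞 K) {N : ℕ} (χ : DirichletCharacter ℂ N) (F : ℂ → ℂ) : Prop :=
  ∀ s : ℂ, 3 / 2 < s.re → HasProd (fun v : {v : HeightOneSpectrum (𝓞 K) // Good a b v} =>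
    (1 - χ (q v.1 : ZMod N) * ((q v.1 : ℂ) - points a b v.1) * (q v.1 : ℂ) ^ (-s) +
      χ (q v.1 : ZMod N) ^ 2 * (q v.1 : ℂ) ^ (1 - 2 * s))⁻¹) (F s)

/-- `F₂` is the product of the `(1 - χ(q_v) (a_v² - 2 q_v) q_v^{-s} + χ(q_v)² q_v^{2-2s})⁻¹` for `Re s > 2`, where
`a_v = q_v - N_v`. -/
def IsSquareTwist (a b : 𝓞 K) {N : ℕ} (χ : DirichletCharacter ℂ N) (F₂ : ℂ → ℂ) : Prop :=
  ∀ s : ℂ, 2 < s.re → HasProd (fun v : {v : HeightOneSpectrum (𝓞 K) // Good a b v} =>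
    (1 - χ (q v.1 : ZMod N) * (((q v.1 : ℂ) - points a b v.1) ^ 2 - 2 * q v.1) * (q v.1 : ℂ) ^ (-s) +
      χ (q v.1 : ZMod N) ^ 2 * (q v.1 : ℂ) ^ (2 - 2 * s))⁻¹) (F₂ s)

/-- The term `log((N_v + 1) / q_v) exp(iγu) / Γ(1 + u)`, `u = log q_v / T`. -/
noncomputable def term (a b : 𝓞 K) (γ T : ℝ) (v : {v : HeightOneSpectrum (𝓞 K) // Good a b v}) : ℂ :=
  Real.log (((points a b v.1 : ℝ) + 1) / q v.1) *
    (Complex.exp ((γ * (Real.log (q v.1) / T) : ℝ) * Complex.I) /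
      (Real.Gamma (1 + Real.log (q v.1) / T) : ℝ))

/-- The sum over the primes with `q_v ≡ c mod N`. -/
noncomputable def S (a b : 𝓞 K) (N : ℕ) (c : ZMod N) (γ T : ℝ) : ℂ :=
  ∑' v : {v : {v : HeightOneSpectrum (𝓞 K) // Good a b v} // ((q v.1 : ℕ) : ZMod N) = c}, term a b γ T v.1

/-- The product over the primes with `q_v ≡ c mod N`. -/
noncomputable def P (a b : 𝓞 K) (N : ℕ) (c : ZMod N) (γ T : ℝ) : ℂ := Complex.exp (S a b N c γ T)

/-- The sum twisted by `χ`. -/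
noncomputable def St (a b : 𝓞 K) {N : ℕ} (χ : DirichletCharacter ℂ N) (γ T : ℝ) : ℂ :=
  ∑' v : {v : HeightOneSpectrum (𝓞 K) // Good a b v}, χ (q v.1 : ZMod N) * term a b γ T v

/-- The constant `Λ(γ) = ∫_0^∞ (e^{-t} - e^{iγt} / Γ(1 + t)) dt / t`. -/
noncomputable def Lambda (γ : ℝ) : ℂ := ∫ t in Set.Ioi (0 : ℝ),
  (Complex.exp (-(t : ℂ)) - Complex.exp ((γ * t : ℝ) * Complex.I) * ((Real.Gamma (1 + t))⁻¹ : ℝ)) / t

/-- `κ(χ) = m(χ) + (n(χ) - n(χ²)) / 2`. -/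
noncomputable def kap {N : ℕ} (m n : DirichletCharacter ℂ N → ℤ) (χ : DirichletCharacter ℂ N) : ℂ :=
  m χ + (n χ - n (χ ^ 2)) / 2

/-- `κ_c = φ(N)⁻¹ ∑_χ χ(c)⁻¹ κ(χ)`. -/
noncomputable def kapC {N : ℕ} (m n : DirichletCharacter ℂ N → ℤ) (c : ZMod N) : ℂ :=
  (N.totient : ℂ)⁻¹ * ∑ χ : DirichletCharacter ℂ N, χ c⁻¹ * kap m n χ

section aux

open Pool.Agent.X287.CR Pool.Agent.X278.OP Pool.Agent.TH942.ES
open Pool.Agent.H921R2.TatePole (nm two_le_nm)

theorem al_sum_prod (a b : 𝓞 K) (v : {v : HeightOneSpectrum (𝓞 K) // GoodV a b v}) :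
    al a b v 0 + al a b v 1 = (nm v.1 : ℂ) - ptsV a b v.1 ∧ al a b v 0 * al a b v 1 = nm v.1 := by
  have hp2 : (2 : ℝ) ≤ nm v.1 := by exact_mod_cast two_le_nm v.1
  have hn0 : (0 : ℝ) < nm v.1 := by linarith
  have h1 := sqrt_nm_pos v.1
  have h1c : ((√(nm v.1 : ℝ) : ℝ) : ℂ) ≠ 0 := by exact_mod_cast h1.ne'
  have h2 : ((√(nm v.1 : ℝ) : ℝ) : ℂ) ^ 2 = nm v.1 := by
    rw [← Complex.ofReal_pow, Real.sq_sqrt hn0.le]
    push_cast
    rfl
  have ht := trV_abs v.2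
  set t : ℝ := trV a b v.1 with htd
  have p1 : rt t 0 + rt t 1 = 2 * t := by
    have e0 : rt t 0 = t + √(1 - t ^ 2) * Complex.I := rfl
    have e1 : rt t 1 = t - √(1 - t ^ 2) * Complex.I := rfl
    rw [e0, e1]; ring
  have p2 : rt t 0 * rt t 1 = 1 := by
    have h3 := rt_prod ht 1
    have h4 : (1 - rt t 0 * 1) * (1 - rt t 1 * 1) = 1 - (rt t 0 + rt t 1) + rt t 0 * rt t 1 := by ring
    rw [h4, p1] at h3
    linear_combination h3
  set r : ℂ := ((√(nm v.1 : ℝ) : ℝ) : ℂ) with hr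
  have e4 : 2 * (t : ℂ) * r = (nm v.1 : ℂ) - ptsV a b v.1 := by
    rw [htd]
    unfold trV
    push_cast
    rw [← hr]
    field_simp
  constructor
  · unfold al alV
    rw [← htd, ← hr, ← mul_add, p1, ← e4]
    ring
  · unfold al alV
    rw [← htd, ← hr]
    calc r * rt t 0 * (r * rt t 1) = r ^ 2 * (rt t 0 * rt t 1) := by ring
      _ = _ := by rw [p2, h2, mul_one]

theorem cpow_facts (v : HeightOneSpectrum (𝓞 K)) (s : ℂ) :
    (nm v : ℂ) ^ (1 - 2 * s) = nm v * ((nm v : ℂ) ^ (-s)) ^ 2 ∧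
    (nm v : ℂ) ^ (2 - 2 * s) = (nm v : ℂ) ^ 2 * ((nm v : ℂ) ^ (-s)) ^ 2 := by
  have hp2 : (2 : ℝ) ≤ nm v := by exact_mod_cast two_le_nm v
  have hn0 : (0 : ℝ) < nm v := by linarith
  have hnc : (nm v : ℂ) ≠ 0 := by exact_mod_cast hn0.ne'
  have h3 : (nm v : ℂ) ^ (2 : ℂ) = (nm v : ℂ) ^ 2 := by
    have := Complex.cpow_natCast (nm v : ℂ) 2
    simpa using this
  have h4 : ((nm v : ℂ) ^ (-s)) ^ 2 = (nm v : ℂ) ^ (-(2 * s)) := by
    rw [← Complex.cpow_nat_mul]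
    congr 1
    push_cast
    ring
  rw [h4]
  constructor
  · rw [sub_eq_add_neg, Complex.cpow_add _ _ hnc, Complex.cpow_one]
  · rw [sub_eq_add_neg, Complex.cpow_add _ _ hnc, h3]

theorem fac_tw (a b : 𝓞 K) (ψ : {v : HeightOneSpectrum (𝓞 K) // GoodV a b v} → ℂ)
    (v : {v : HeightOneSpectrum (𝓞 K) // GoodV a b v}) (s : ℂ) :
    fac (NN a b) (twp ψ (al a b)) s v =
      (1 - ψ v * ((nm v.1 : ℂ) - ptsV a b v.1) * (nm v.1 : ℂ) ^ (-s) +
        ψ v ^ 2 * (nm v.1 : ℂ) ^ (1 - 2 * s))⁻¹ := by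
  obtain ⟨h1, h2⟩ := al_sum_prod a b v
  rw [(cpow_facts v.1 s).1]
  unfold fac
  rw [Fin.prod_univ_two, ← mul_inv]
  congr 1
  have hNN : ((NN a b v : ℕ) : ℂ) ^ (-s) = (nm v.1 : ℂ) ^ (-s) := rfl
  rw [hNN]
  set x : ℂ := (nm v.1 : ℂ) ^ (-s) with hx
  unfold twp
  calc (1 - ψ v * al a b v 0 * x) * (1 - ψ v * al a b v 1 * x) =
      1 - ψ v * (al a b v 0 + al a b v 1) * x + ψ v ^ 2 * ((al a b v 0 * al a b v 1) * x ^ 2) := by ring
    _ = _ := by rw [h1, h2]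

theorem fac_sq_tw (a b : 𝓞 K) (ψ : {v : HeightOneSpectrum (𝓞 K) // GoodV a b v} → ℂ)
    (v : {v : HeightOneSpectrum (𝓞 K) // GoodV a b v}) (s : ℂ) :
    fac (NN a b) (twp ψ (sq (al a b))) s v =
      (1 - ψ v * (((nm v.1 : ℂ) - ptsV a b v.1) ^ 2 - 2 * nm v.1) * (nm v.1 : ℂ) ^ (-s) +
        ψ v ^ 2 * (nm v.1 : ℂ) ^ (2 - 2 * s))⁻¹ := by
  obtain ⟨h1, h2⟩ := al_sum_prod a b v
  rw [(cpow_facts v.1 s).2]
  unfold fac
  rw [Fin.prod_univ_two, ← mul_inv]
  congr 1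
  have hNN : ((NN a b v : ℕ) : ℂ) ^ (-s) = (nm v.1 : ℂ) ^ (-s) := rfl
  rw [hNN]
  set x : ℂ := (nm v.1 : ℂ) ^ (-s) with hx
  unfold twp Pool.Agent.X278.OP.sq
  calc (1 - ψ v * al a b v 0 ^ 2 * x) * (1 - ψ v * al a b v 1 ^ 2 * x) =
      1 - ψ v * ((al a b v 0 + al a b v 1) ^ 2 - 2 * (al a b v 0 * al a b v 1)) * x +
        ψ v ^ 2 * ((al a b v 0 * al a b v 1) ^ 2 * x ^ 2) := by ring
    _ = _ := by rw [h1, h2]

theorem term_eq (a b : 𝓞 K) (γ T : ℝ) (v : {v : HeightOneSpectrum (𝓞 K) // GoodV a b v}) :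
    -(lg (NN a b) (al a b) 1 v) * Wt γ (Real.log (NN a b v) / T) = term a b γ T v := by
  rw [lg_al]
  unfold Wt Pool.Agent.W189.ML.om term
  rw [Complex.ofReal_inv, ← div_eq_mul_inv]
  rfl

end aux

open Pool.Agent.X287.CR Pool.Agent.X278.OP Pool.Agent.TH942.ES in
/-- **The original products of Birch and Swinnerton-Dyer in residue classes.** -/
theorem result (a b : 𝓞 K) (N : ℕ) [NeZero N] (F F₂ : DirichletCharacter ℂ N → ℂ → ℂ)
    (hF : ∀ χ, IsTwist a b χ (F χ))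
    (hFm : ∀ χ, ∀ x : ℝ, 1 ≤ x → x ≤ 3 / 2 → MeromorphicAt (F χ) (x : ℂ))
    (hF₂ : ∀ χ, IsSquareTwist a b χ (F₂ χ)) (hF₂m : ∀ χ, MeromorphicAt (F₂ χ) 2)
    (γ : ℝ) (hγ : Real.pi / 2 < γ) :
    -- absolute convergence
    (∀ T : ℝ, 0 < T → Summable fun v => ‖term a b γ T v‖) ∧
    -- the orders
    ∃ m n : DirichletCharacter ℂ N → ℤ,
      (∀ χ, meromorphicOrderAt (F χ) 1 = m χ) ∧ (∀ χ, meromorphicOrderAt (F₂ χ) 2 = n χ) ∧
      -- 1. the twisted sums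
      (∀ χ, ∃ C : ℂ, (fun T : ℝ => St a b χ γ T - (kap m n χ * (Real.log T - Lambda γ) + C)) =O[atTop]
        (fun T : ℝ => 1 / T)) ∧
      (∀ χ, ∀ r : ℤ, m χ = r ↔
        Tendsto (fun T : ℝ => St a b χ γ T / Real.log T) atTop (𝓝 (r + (n χ - n (χ ^ 2)) / 2))) ∧
      -- 2. the residue classes
      (∀ c : (ZMod N)ˣ, (∃ C : ℂ, (fun T : ℝ => S a b N c γ T -
          (kapC m n (c : ZMod N) * (Real.log T - Lambda γ) + C)) =O[atTop] (fun T : ℝ => 1 / T)) ∧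
        ∃ A : ℂ, A ≠ 0 ∧
          Tendsto (fun T : ℝ => P a b N c γ T / (T : ℂ) ^ kapC m n (c : ZMod N)) atTop (𝓝 A)) ∧
      -- 3. the class of `1` and the sum of the orders
      (∀ r : ℤ, ∑ χ : DirichletCharacter ℂ N, m χ = r ↔
        Tendsto (fun T : ℝ => S a b N 1 γ T / Real.log T) atTop
          (𝓝 ((r + (∑ χ : DirichletCharacter ℂ N, ((n χ : ℂ) - n (χ ^ 2))) / 2) / N.totient))) ∧
      -- 4. simultaneous non-vanishing
      ((∀ χ, 0 ≤ m χ) → ((∀ χ, m χ = 0) ↔ ∃ B : ℝ, ∀ᶠ T : ℝ in atTop, ‖P a b N 1 γ T‖ ≤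
        B * T ^ ((∑ χ : DirichletCharacter ℂ N, ((n χ : ℝ) - n (χ ^ 2))) / (2 * N.totient)))) := by
  have G := al_sys a b
  have hs1 : (1 / 2 : ℝ) + 1 / 2 ≤ (1 : ℂ).re := by norm_num
  set ψ : DirichletCharacter ℂ N → {v : HeightOneSpectrum (𝓞 K) // GoodV a b v} → ℂ :=
    fun χ v => χ ((NN a b v : ℕ) : ZMod N) with hψd
  have hψ : ∀ χ v, ‖ψ χ v‖ ≤ 1 := fun χ v => DirichletCharacter.norm_le_one χ _
  have hψ2 : ∀ χ, (fun v => ψ χ v ^ 2) = ψ (χ ^ 2) := by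
    intro χ
    funext v
    simp only [hψd, MulChar.pow_apply' _ two_ne_zero]
  have hlaw1 : ∀ χ, ∃ (m : ℤ) (ρ : ℂ), meromorphicOrderAt (F χ) 1 = m ∧
      Asy (Lambda γ) (Su (NN a b) (twp (ψ χ) (al a b)) 1 γ) m ρ := by
    intro χ
    obtain ⟨m, ρ, h1, -, h3⟩ := (twp_sys G (hψ χ)).law (L := F χ) (fun s hs => by
      have h4 := hF χ s (by linarith)
      have h5 : fac (NN a b) (twp (ψ χ) (al a b)) s =
          fun v : {v : HeightOneSpectrum (𝓞 K) // Good a b v} =>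
          (1 - χ (q v.1 : ZMod N) * ((q v.1 : ℂ) - points a b v.1) * (q v.1 : ℂ) ^ (-s) +
            χ (q v.1 : ZMod N) ^ 2 * (q v.1 : ℂ) ^ (1 - 2 * s))⁻¹ := by
        funext v
        exact fac_tw a b (ψ χ) v s
      rw [h5]
      exact h4) (s₀ := 1) (by norm_num) (fun x hx0 hx1 => by
        have h4 := hFm χ (1 + x) (by linarith) (by
          rw [Complex.one_re] at hx1
          linarith)
        push_cast at h4
        exact h4) hγ
    exact ⟨m, ρ, h1, h3⟩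
  have hlaw2 : ∀ χ, ∃ (n : ℤ) (ρ : ℂ), meromorphicOrderAt (F₂ χ) 2 = n ∧
      Asy (Lambda γ) (Su (NN a b) (twp (ψ χ) (sq (al a b))) (2 * 1) γ) n ρ := by
    intro χ
    obtain ⟨n, ρ₂, k1, -, k3⟩ := (twp_sys (sq_sys G) (hψ χ)).law (L := F₂ χ) (fun s hs => by
      have h4 := hF₂ χ s (by linarith)
      have h5 : fac (NN a b) (twp (ψ χ) (sq (al a b))) s =
          fun v : {v : HeightOneSpectrum (𝓞 K) // Good a b v} =>
          (1 - χ (q v.1 : ZMod N) * (((q v.1 : ℂ) - points a b v.1) ^ 2 - 2 * q v.1) *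
            (q v.1 : ℂ) ^ (-s) + χ (q v.1 : ZMod N) ^ 2 * (q v.1 : ℂ) ^ (2 - 2 * s))⁻¹ := by
        funext v
        exact fac_sq_tw a b (ψ χ) v s
      rw [h5]
      exact h4) (s₀ := 2 * 1) (by norm_num) (fun x hx0 hx1 => by
        have h5 : x = 0 := by
          have : ((2 : ℂ) * 1).re = 2 := by simp
          rw [this] at hx1
          linarith
        rw [h5]
        simpa using hF₂m χ) hγ
    rw [mul_one] at k1
    exact ⟨n, ρ₂, k1, k3⟩
  choose m ρ hm hA using hlaw1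
  choose n ρ₂ hn hA2 using hlaw2
  have hSt : ∀ χ, Spt (ψ χ) (NN a b) (al a b) 1 γ = St a b χ γ := by
    intro χ
    funext T
    unfold Spt St
    refine tsum_congr fun v => ?_
    rw [term_eq]
    rfl
  have htw : ∀ χ, ∃ C : ℂ, Asc (Lambda γ) (Spt (ψ χ) (NN a b) (al a b) 1 γ) (kap m n χ) C := fun χ =>
    law_tw G (hψ χ) hs1 γ (hA χ) (hA2 χ) (by rw [hψ2]; exact hA2 (χ ^ 2))
  choose C hC using htw
  have hcl : ∀ c : (ZMod N)ˣ, Asc (Lambda γ) (S a b N c γ) (kapC m n (c : ZMod N))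
      ((N.totient : ℂ)⁻¹ * ∑ χ : DirichletCharacter ℂ N, χ ((c : ZMod N)⁻¹) * C χ) := by
    intro c
    have h1 := class_Asc G hs1 γ (kap m n) C hC c
    have h2 : (fun T => ∑' v : {v : {v : HeightOneSpectrum (𝓞 K) // GoodV a b v} //
        ((NN a b v : ℕ) : ZMod N) = c}, -(lg (NN a b) (al a b) 1 v.1) *
        Wt γ (Real.log (NN a b v.1) / T)) = S a b N c γ := by
      funext T
      unfold S
      exact tsum_congr fun v => term_eq a b γ T v.1
    rw [h2] at h1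
    exact h1
  have hφ0 : 0 < N.totient := Nat.totient_pos.2 (NeZero.pos N)
  have hφ : (N.totient : ℂ) ≠ 0 := by exact_mod_cast hφ0.ne'
  have hφr : (0 : ℝ) < N.totient := by exact_mod_cast hφ0
  have hk1 : kapC m n (1 : ZMod N) = ((∑ χ : DirichletCharacter ℂ N, (m χ : ℂ)) +
      (∑ χ : DirichletCharacter ℂ N, ((n χ : ℂ) - n (χ ^ 2))) / 2) / N.totient := by
    unfold kapC kap
    have e1 : ∀ χ : DirichletCharacter ℂ N, χ ((1 : ZMod N))⁻¹ = 1 := by
      intro χ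
      rw [ZMod.inv_one, map_one]
    simp only [e1, one_mul, Finset.sum_add_distrib, ← Finset.sum_div]
    rw [inv_mul_eq_div]
  have hc1 := hcl 1
  rw [Units.val_one] at hc1
  refine ⟨fun T hT => ?_, m, n, hm, hn, fun χ => ⟨C χ, ?_⟩, fun χ r => ?_, fun c => ⟨⟨_, hcl c⟩, _,
    Complex.exp_ne_zero _, (hcl c).exp_lim⟩, fun r => ?_, fun hpos => ?_⟩
  · refine (Sp_summable G hs1 γ hT).congr fun v => ?_
    rw [term_eq]
  · have := hC χ
    rw [hSt] at this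
    exact this
  · have h1 := hC χ
    rw [hSt] at h1
    rw [← h1.lim_iff]
    unfold kap
    rw [add_left_inj]
    exact_mod_cast Iff.rfl
  · rw [← hc1.lim_iff, hk1, div_left_inj' hφ, add_left_inj]
    constructor
    · intro h
      rw [← h]
      push_cast
      rfl
    · intro h
      exact_mod_cast h
  · set k₀ : ℝ := (∑ χ : DirichletCharacter ℂ N, ((n χ : ℝ) - n (χ ^ 2))) / (2 * N.totient) with hk₀
    set M : ℤ := ∑ χ : DirichletCharacter ℂ N, m χ with hM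
    have hk : kapC m n (1 : ZMod N) = ((k₀ + M / N.totient : ℝ) : ℂ) := by
      rw [hk1, hk₀, hM]
      push_cast
      field_simp
      ring
    have hre := hc1.re hk
    have h1 := le_of_bound (k₀ := k₀) hre
    have h2 : (k₀ + M / N.totient ≤ k₀) ↔ ∀ χ, m χ = 0 := by
      have h3 : (k₀ + M / N.totient ≤ k₀) ↔ (M : ℝ) ≤ 0 := by
        constructor
        · intro h
          have h4 : (M : ℝ) / N.totient ≤ 0 := by linarith
          by_contra hlt
          push Not at hlt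
          have := div_pos hlt hφr
          linarith
        · intro h
          have := div_nonpos_of_nonpos_of_nonneg h hφr.le
          linarith
      rw [h3]
      constructor
      · intro h
        have h5 : M ≤ 0 := by exact_mod_cast h
        have h6 : M = 0 := le_antisymm h5 (Finset.sum_nonneg fun χ _ => hpos χ)
        intro χ
        exact (Finset.sum_eq_zero_iff_of_nonneg fun χ _ => hpos χ).1 h6 χ (Finset.mem_univ χ)
      · intro h
        rw [hM]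
        simp [h]
    rw [← h2, h1]
    exact Iff.rfl

end Pool.Agent.Results.MP_ad1693_nt.ProductsInResidueClasses
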